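import Pool.Agent.W744.BU.Stm

/-!
Project BU, part YF: the path of unitaries attached to a formal product of conjugates.
-/

set_option autoImplicit false

open Set Filter Topology

namespace Pool.Agent.W165.BU.YF

open Pool.Agent.W744.BU

theorem ev_cont {G B : Type} [CStarAlgebra B] (u : G → B) (P : unitInterval → B)
    (hP : Continuous P) (x : Ex G) : Continuous (fun t => Ex.ev u (P t) x) := by
  induction x with
  | one => exact (continuous_const : Continuous fun _ : unitInterval => (1 : B))
  | base => exact hP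
  | inv x ih => exact ih.star
  | mul x y ihx ihy => exact ihx.mul ihy
  | conj h x ih => exact (continuous_const.mul ih).mul continuous_const

theorem ev_unitary {G B : Type} [CStarAlgebra B] (u : G → B) (P : B)
    (hu : ∀ g, u g ∈ unitary B) (hP : P ∈ unitary B) (x : Ex G) : Ex.ev u P x ∈ unitary B := by
  induction x with
  | one => exact one_mem _
  | base => exact hP
  | inv x ih => exact Unitary.star_mem ih
  | mul x y ihx ihy => exact mul_mem ihx ihy
  | conj h x ih => exact mul_mem (mul_mem (hu h) ih) (Unitary.star_mem (hu h))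

theorem ev_one {G B : Type} [CStarAlgebra B] (u : G → B)
    (hu : ∀ g, u g ∈ unitary B) (x : Ex G) : Ex.ev u 1 x = 1 := by
  induction x with
  | one => rfl
  | base => rfl
  | inv x ih => simp [Ex.ev, ih]
  | mul x y ihx ihy => simp [Ex.ev, ihx, ihy]
  | conj h x ih => simp [Ex.ev, ih, Unitary.mul_star_self_of_mem (hu h)]

theorem ev_map {G B C : Type} [CStarAlgebra B] [CStarAlgebra C] (f : B →⋆ₐ[ℂ] C) (u : G → B)
    (P : B) (x : Ex G) : f (Ex.ev u P x) = Ex.ev (fun h => f (u h)) (f P) x := by
  induction x with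
  | one => simp [Ex.ev]
  | base => rfl
  | inv x ih => simp [Ex.ev, ih, map_star]
  | mul x y ihx ihy => simp [Ex.ev, ihx, ihy]
  | conj h x ih => simp [Ex.ev, ih, map_star]

theorem main (hA : S_POLA) (hB : S_POLB) (hT : S_TC) : S_YF := by
  intro D B _ u hG g
  obtain ⟨hu, hI⟩ := hG
  obtain ⟨hA1, hA2, hA3⟩ := hA
  obtain ⟨hT1, hT2⟩ := hT
  obtain ⟨hc, h0, h1⟩ := hT1 B (u D.a) (u D.b) (hu _) (hu _)
  refine ⟨?_, ?_, ?_, ?_, ?_⟩
  · exact ev_cont u (fun t : unitInterval => pathF (t : ℝ) (u D.a) (u D.b))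
      (hB B _ hc fun t => hI t t.2.1 t.2.2) (D.ex g)
  · intro t ht0 ht1
    exact ev_unitary u _ hu (hA1 B _ (hI t ht0 ht1)) (D.ex g)
  · have : pathF 0 (u D.a) (u D.b) = 1 := by
      unfold pathF
      rw [h0]
      exact hA2 B 1 (one_mem _)
    unfold YF
    rw [this]
    exact ev_one u hu _
  · intro t ht0 ht1 C _ f
    unfold YF
    rw [ev_map]
    congr 1
    unfold pathF
    rw [hA3 B C f _ (hI t ht0 ht1), hT2 B C f (u D.a) (u D.b) (hu _) t ht0 ht1]
  · have : pathF 1 (u D.a) (u D.b) = u D.b * u D.a * star (u D.b) * star (u D.a) := by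
      unfold pathF
      rw [h1]
      exact hA2 B _ (mul_mem (mul_mem (mul_mem (hu _) (hu _)) (Unitary.star_mem (hu _)))
        (Unitary.star_mem (hu _)))
    unfold YF
    rw [this]

end Pool.Agent.W165.BU.YF
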